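import Pool.Agent.Y670.KD.Defs
import Pool.Agent.Helper750.CT.Ryll

set_option autoImplicit false

/-! Project KD (helper670), job KD-CAT: a union of `k` copies of a structure with finitely many
types has finitely many types. -/

namespace Pool.Agent.Y145.KD

open Pool.Agent.Helper750.DC Pool.Agent.Helper750.CT Pool.Agent.Helper750.OC
open Pool.Agent.Y670.KD

/-- The type over the variables in `V`. -/
def tpV (A : Str) (V : Finset ℕ) (x : ℕ → ℕ) : Set Fml :=
  {φ | (∀ v, Free φ v → v ∈ V) ∧ Sat LL A φ x}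

lemma tpV_mono {A : Str} {W V : Finset ℕ} (h : W ⊆ V) {x y : ℕ → ℕ}
    (he : tpV A V x = tpV A V y) : tpV A W x = tpV A W y := by
  ext φ
  constructor
  · rintro ⟨h1, h2⟩
    have h3 : φ ∈ tpV A V x := ⟨fun v hv => h (h1 v hv), h2⟩
    rw [he] at h3
    exact ⟨h1, h3.2⟩
  · rintro ⟨h1, h2⟩
    have h3 : φ ∈ tpV A V y := ⟨fun v hv => h (h1 v hv), h2⟩
    rw [← he] at h3
    exact ⟨h1, h3.2⟩

lemma tpV_congr {A : Str} {V : Finset ℕ} {x y : ℕ → ℕ} (h : ∀ v ∈ V, x v = y v) :
    tpV A V x = tpV A V y := by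
  ext φ
  constructor
  · rintro ⟨h1, h2⟩
    exact ⟨h1, (ryll_congr LL A φ x y fun v hv => h v (h1 v hv)).1 h2⟩
  · rintro ⟨h1, h2⟩
    exact ⟨h1, (ryll_congr LL A φ x y fun v hv => h v (h1 v hv)).2 h2⟩

lemma tpV_fin {A : Str} (hfin : ∀ m, {q | ∃ x, q = tp LL A m x}.Finite) (V : Finset ℕ) :
    {q | ∃ x, q = tpV A V x}.Finite := by
  have hm : ∀ v ∈ V, v < V.sup id + 1 := fun v hv =>
    Nat.lt_succ_of_le (Finset.le_sup (f := id) hv)
  refine ((hfin (V.sup id + 1)).image (fun q => {φ | φ ∈ q ∧ ∀ v, Free φ v → v ∈ V})).subset ?_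
  rintro _ ⟨x, rfl⟩
  refine ⟨tp LL A (V.sup id + 1) x, ⟨x, rfl⟩, ?_⟩
  ext φ
  constructor
  · rintro ⟨⟨_, h2⟩, h3⟩
    exact ⟨h3, h2⟩
  · rintro ⟨h1, h2⟩
    exact ⟨⟨fun v hv => hm v (h1 v hv), h2⟩, h1⟩

lemma distV (A : Str) (V : Finset ℕ) (x y : ℕ → ℕ) (h : tpV A V y ≠ tpV A V x) :
    ∃ φ, φ ∈ tpV A V x ∧ φ ∉ tpV A V y := by
  by_contra hcon
  push Not at hcon
  apply h
  ext φ
  constructor
  · rintro ⟨h1, h2⟩
    by_contra h3
    have h4 : Fml.not φ ∈ tpV A V x := ⟨h1, fun h5 => h3 ⟨h1, h5⟩⟩
    exact (hcon _ h4).2 h2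
  · exact hcon φ

lemma isolV (A : Str) (hfin : ∀ m, {q | ∃ x, q = tp LL A m x}.Finite) (V : Finset ℕ)
    (x : ℕ → ℕ) : ∃ χ, χ ∈ tpV A V x ∧ ∀ y, Sat LL A χ y → tpV A V y = tpV A V x := by
  have key : ∀ Q : Set (Set Fml), Q.Finite → ∃ χ, χ ∈ tpV A V x ∧
      ∀ y, Sat LL A χ y → tpV A V y ∈ Q → tpV A V y = tpV A V x := by
    intro Q hQ
    induction Q, hQ using Set.Finite.induction_on with
    | empty =>
      exact ⟨ryll_T, ⟨fun v hv => absurd hv (ryll_T_free v), ryll_T_sat _ _ _⟩,
        fun y _ h => absurd h (Set.notMem_empty _)⟩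
    | @insert q Q _ _ ih =>
      obtain ⟨χ, h1, h2⟩ := ih
      by_cases hq : ∃ y, tpV A V y = q ∧ q ≠ tpV A V x
      · obtain ⟨y0, hy0, hne⟩ := hq
        obtain ⟨φ, h3, h4⟩ := distV A V x y0 (hy0 ▸ hne)
        refine ⟨.and χ φ, ⟨fun v hv => ?_, h1.2, h3.2⟩, fun y hy hyq => ?_⟩
        · rcases hv with hv | hv
          · exact h1.1 v hv
          · exact h3.1 v hv
        · rcases hyq with hyq | hyq
          · exfalso
            apply h4
            rw [hy0, ← hyq]
            exact ⟨h3.1, hy.2⟩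
          · exact h2 y hy.1 hyq
      · push Not at hq
        refine ⟨χ, h1, fun y hy hyq => ?_⟩
        rcases hyq with hyq | hyq
        · have := hq y hyq
          rw [hyq, this]
        · exact h2 y hy hyq
  obtain ⟨χ, h1, h2⟩ := key _ (tpV_fin hfin V)
  exact ⟨χ, h1, fun y hy => h2 y hy ⟨y, rfl⟩⟩

lemma extV {A : Str} (hfin : ∀ m, {q | ∃ x, q = tp LL A m x}.Finite) (V : Finset ℕ) (v : ℕ)
    (x y : ℕ → ℕ) (h : tpV A V x = tpV A V y) (a : ℕ) :
    ∃ b, tpV A (insert v V) (Function.update x v a) =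
      tpV A (insert v V) (Function.update y v b) := by
  obtain ⟨χ, h1, h2⟩ := isolV A hfin (insert v V) (Function.update x v a)
  have h3 : Fml.ex v χ ∈ tpV A V x := by
    refine ⟨fun u hu => ?_, a, h1.2⟩
    obtain ⟨hu1, hu2⟩ := hu
    exact (Finset.mem_insert.1 (h1.1 u hu1)).resolve_left hu2
  rw [h] at h3
  obtain ⟨b, hb⟩ := h3.2
  exact ⟨b, (h2 _ hb).symm⟩

/-- The assignments `x`, `y` in the union look the same on the variables in `V`. -/
structure Eqv (A : Str) (k : ℕ) (V : Finset ℕ) (x y : ℕ → ℕ) : Prop where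
  r : ∀ v ∈ V, x v % k = y v % k
  t : ∀ j < k, tpV A (V.filter fun v => x v % k = j) (fun v => x v / k) =
    tpV A (V.filter fun v => x v % k = j) (fun v => y v / k)

lemma Eqv.symm {A : Str} {k : ℕ} {V : Finset ℕ} {x y : ℕ → ℕ} (h : Eqv A k V x y) :
    Eqv A k V y x := by
  refine ⟨fun v hv => (h.r v hv).symm, fun j hj => ?_⟩
  have h1 : (V.filter fun v => y v % k = j) = V.filter fun v => x v % k = j :=
    Finset.filter_congr fun v hv => by rw [h.r v hv]
  rw [h1]
  exact (h.t j hj).symm

lemma Eqv.ext {A : Str} {k : ℕ} (hk : 0 < k) (hfin : ∀ m, {q | ∃ x, q = tp LL A m x}.Finite)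
    {V : Finset ℕ} {x y : ℕ → ℕ} (h : Eqv A k V x y) (v a : ℕ) :
    ∃ b, Eqv A k (insert v V) (Function.update x v a) (Function.update y v b) := by
  have hj : a % k < k := Nat.mod_lt _ hk
  -- restriction
  have hres : ∀ j < k, tpV A (V.filter fun u => u ≠ v ∧ x u % k = j) (fun u => x u / k) =
      tpV A (V.filter fun u => u ≠ v ∧ x u % k = j) (fun u => y u / k) := by
    intro j hj'
    refine tpV_mono ?_ (h.t j hj')
    intro u hu
    rw [Finset.mem_filter] at hu ⊢
    exact ⟨hu.1, hu.2.2⟩
  obtain ⟨b, hb⟩ := extV hfin (V.filter fun u => u ≠ v ∧ x u % k = a % k) v _ _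
    (hres (a % k) hj) (a / k)
  have hbk : (b * k + a % k) / k = b := by
    rw [mul_comm, Nat.mul_add_div hk, Nat.div_eq_of_lt hj, add_zero]
  have hbm : (b * k + a % k) % k = a % k := by
    rw [Nat.mul_add_mod_self_right, Nat.mod_mod]
  refine ⟨b * k + a % k, ?_, ?_⟩
  · intro u hu
    by_cases huv : u = v
    · subst huv
      rw [Function.update_self, Function.update_self, hbm]
    · rw [Function.update_of_ne huv, Function.update_of_ne huv]
      exact h.r u ((Finset.mem_insert.1 hu).resolve_left huv)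
  · intro j hj'
    have ex : (fun u => Function.update x v a u / k) =
        Function.update (fun u => x u / k) v (a / k) := by
      funext u
      by_cases huv : u = v
      · subst huv
        rw [Function.update_self, Function.update_self]
      · rw [Function.update_of_ne huv, Function.update_of_ne huv]
    have ey : (fun u => Function.update y v (b * k + a % k) u / k) =
        Function.update (fun u => y u / k) v b := by
      funext u
      by_cases huv : u = v
      · subst huv
        rw [Function.update_self, Function.update_self, hbk]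
      · rw [Function.update_of_ne huv, Function.update_of_ne huv]
    rw [ex, ey]
    by_cases hja : a % k = j
    · have e1 : ((insert v V).filter fun u => Function.update x v a u % k = j) =
          insert v (V.filter fun u => u ≠ v ∧ x u % k = a % k) := by
        ext u
        rw [Finset.mem_filter, Finset.mem_insert, Finset.mem_insert, Finset.mem_filter]
        by_cases huv : u = v
        · subst huv
          rw [Function.update_self]
          simp [hja]
        · rw [Function.update_of_ne huv]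
          simp [huv, hja]
      rw [e1]
      exact hb
    · have e1 : ((insert v V).filter fun u => Function.update x v a u % k = j) =
          V.filter fun u => u ≠ v ∧ x u % k = j := by
        ext u
        rw [Finset.mem_filter, Finset.mem_insert, Finset.mem_filter]
        by_cases huv : u = v
        · subst huv
          rw [Function.update_self]
          simp [hja]
        · rw [Function.update_of_ne huv]
          simp [huv]
      rw [e1]
      have hne : ∀ u ∈ V.filter (fun u => u ≠ v ∧ x u % k = j), u ≠ v := fun u hu =>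
        (Finset.mem_filter.1 hu).2.1
      rw [tpV_congr (y := fun u => x u / k) fun u hu => Function.update_of_ne (hne u hu) _ _,
        tpV_congr (x := Function.update (fun u => y u / k) v b) (y := fun u => y u / k)
          fun u hu => Function.update_of_ne (hne u hu) _ _]
      exact hres j hj'

theorem main {A : Str} {k : ℕ} (hk : 0 < k) (hfin : ∀ m, {q | ∃ x, q = tp LL A m x}.Finite)
    (φ : Fml) : ∀ (V : Finset ℕ) (x y : ℕ → ℕ), Eqv A k V x y → (∀ v, Free φ v → v ∈ V) →
      (Sat LL (Ud k fun _ => A) φ x ↔ Sat LL (Ud k fun _ => A) φ y) := by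
  induction φ with
  | rel i vs =>
    intro V x y h hV
    have key : ∀ x y, Eqv A k V x y → Sat LL (Ud k fun _ => A) (.rel i vs) x →
        Sat LL (Ud k fun _ => A) (.rel i vs) y := by
      rintro x y h ⟨h1, h2⟩
      refine ⟨h1, ?_⟩
      have hi : i = vs.length := Option.some.inj h1
      rcases h2 with ⟨h3, h4⟩ | ⟨h3, h4, h5⟩
      · left
        refine ⟨h3, ?_⟩
        obtain ⟨u, w, hvs⟩ := List.length_eq_two.1 (hi.symm.trans h3)
        subst hvs
        have hu : u ∈ V := hV u (List.mem_cons_self)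
        have hw : w ∈ V := hV w (List.mem_cons_of_mem _ (List.mem_cons_self))
        have h4' : x u % k = x w % k := h4
        show y u % k = y w % k
        rw [← h.r u hu, ← h.r w hw, h4']
      · right
        cases vs with
        | nil =>
          exfalso
          rw [hi] at h3
          simp at h3
        | cons u0 t =>
          have h6 : ∀ u ∈ u0 :: t, x u % k = x u0 % k := fun u hu =>
            h4 (x u) (List.mem_map_of_mem hu)
          have hVu : ∀ u ∈ u0 :: t, u ∈ V := fun u hu => hV u hu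
          refine ⟨h3, ?_, ?_⟩
          · intro z hz
            obtain ⟨u, hu, rfl⟩ := List.mem_map.1 hz
            show y u % k = y u0 % k
            rw [← h.r u (hVu u hu), ← h.r u0 (hVu u0 List.mem_cons_self), h6 u hu]
          · have h7 : Fml.rel i (u0 :: t) ∈ tpV A (V.filter fun v => x v % k = x u0 % k)
                (fun v => x v / k) := by
              refine ⟨fun v hv => Finset.mem_filter.2 ⟨hVu v hv, h6 v hv⟩, h1, ?_⟩
              have h8 : A.R i (((u0 :: t).map x).map fun x => x / k) := h5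
              rwa [List.map_map] at h8
            rw [h.t _ (Nat.mod_lt _ hk)] at h7
            have h8 : A.R i ((u0 :: t).map fun v => y v / k) := h7.2.2
            show A.R i (((u0 :: t).map y).map fun x => x / k)
            rw [List.map_map]
            exact h8
    exact ⟨key x y h, key y x h.symm⟩
  | fn i vs w =>
    intro V x y h hV
    constructor
    · rintro ⟨h1, _⟩
      exact absurd h1 (by simp [LL])
    · rintro ⟨h1, _⟩
      exact absurd h1 (by simp [LL])
  | eq u w =>
    intro V x y h hV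
    have key : ∀ x y, Eqv A k V x y → x u = x w → y u = y w := by
      intro x y h h1
      have hu : u ∈ V := hV u (Or.inl rfl)
      have hw : w ∈ V := hV w (Or.inr rfl)
      have h7 : Fml.eq u w ∈ tpV A (V.filter fun v => x v % k = x u % k)
          (fun v => x v / k) := by
        refine ⟨fun v hv => ?_, ?_⟩
        · rcases hv with rfl | rfl
          · exact Finset.mem_filter.2 ⟨hu, rfl⟩
          · exact Finset.mem_filter.2 ⟨hw, by rw [h1]⟩
        · show x u / k = x w / k
          rw [h1]
      rw [h.t _ (Nat.mod_lt _ hk)] at h7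
      have h8 : y u / k = y w / k := h7.2
      have h9 : y u % k = y w % k := by rw [← h.r u hu, ← h.r w hw, h1]
      rw [← Nat.div_add_mod (y u) k, h8, h9, Nat.div_add_mod]
    exact ⟨key x y h, key y x h.symm⟩
  | not φ ih =>
    intro V x y h hV
    exact not_congr (ih V x y h hV)
  | and φ ψ ih1 ih2 =>
    intro V x y h hV
    exact and_congr (ih1 V x y h fun v hv => hV v (Or.inl hv))
      (ih2 V x y h fun v hv => hV v (Or.inr hv))
  | ex v φ ih =>
    intro V x y h hV
    have key : ∀ x y, Eqv A k V x y → Sat LL (Ud k fun _ => A) (.ex v φ) x →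
        Sat LL (Ud k fun _ => A) (.ex v φ) y := by
      rintro x y h ⟨a, ha⟩
      obtain ⟨b, hb⟩ := h.ext hk hfin v a
      refine ⟨b, (ih (insert v V) _ _ hb fun u hu => ?_).1 ha⟩
      by_cases huv : u = v
      · rw [huv]
        exact Finset.mem_insert_self _ _
      · exact Finset.mem_insert_of_mem (hV u ⟨hu, huv⟩)
    exact ⟨key x y h, key y x h.symm⟩

theorem t_CAT : Stm_CAT := by
  intro A k hk hfin m
  classical
  have key : ∀ x y : ℕ → ℕ, (∀ v < m, x v % k = y v % k) →
      tp LL A m (fun v => x v / k) = tp LL A m (fun v => y v / k) →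
      tp LL (Ud k fun _ => A) m x = tp LL (Ud k fun _ => A) m y := by
    intro x y h1 h2
    have h3 : Eqv A k (Finset.range m) x y := by
      refine ⟨fun v hv => h1 v (Finset.mem_range.1 hv), fun j _ => ?_⟩
      have hsub : ∀ v ∈ (Finset.range m).filter (fun v => x v % k = j), v < m := fun v hv =>
        Finset.mem_range.1 (Finset.mem_filter.1 hv).1
      ext φ
      constructor
      · rintro ⟨h4, h5⟩
        have h6 : φ ∈ tp LL A m (fun v => x v / k) := ⟨fun v hv => hsub v (h4 v hv), h5⟩
        rw [h2] at h6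
        exact ⟨h4, h6.2⟩
      · rintro ⟨h4, h5⟩
        have h6 : φ ∈ tp LL A m (fun v => y v / k) := ⟨fun v hv => hsub v (h4 v hv), h5⟩
        rw [← h2] at h6
        exact ⟨h4, h6.2⟩
    ext φ
    constructor
    · rintro ⟨h4, h5⟩
      exact ⟨h4, (main hk hfin φ _ x y h3 fun v hv => Finset.mem_range.2 (h4 v hv)).1 h5⟩
    · rintro ⟨h4, h5⟩
      exact ⟨h4, (main hk hfin φ _ x y h3 fun v hv => Finset.mem_range.2 (h4 v hv)).2 h5⟩
  set g : (Fin m → Fin k) × Set Fml → Set Fml := fun p =>
    if h : ∃ x : ℕ → ℕ, (∀ v : Fin m, x v % k = p.1 v) ∧ tp LL A m (fun v => x v / k) = p.2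
    then tp LL (Ud k fun _ => A) m h.choose else ∅ with hg
  refine (((Set.finite_univ (α := Fin m → Fin k)).prod (hfin m)).image g).subset ?_
  rintro _ ⟨x, rfl⟩
  refine ⟨(fun v => ⟨x v % k, Nat.mod_lt _ hk⟩, tp LL A m (fun v => x v / k)),
    ⟨Set.mem_univ _, ⟨_, rfl⟩⟩, ?_⟩
  have hex : ∃ z : ℕ → ℕ, (∀ v : Fin m, z v % k = x v % k) ∧
      tp LL A m (fun v => z v / k) = tp LL A m (fun v => x v / k) := ⟨x, fun _ => rfl, rfl⟩
  have e1 : g (fun v => ⟨x v % k, Nat.mod_lt _ hk⟩, tp LL A m (fun v => x v / k)) =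
      tp LL (Ud k fun _ => A) m hex.choose := by
    rw [hg]
    exact dif_pos hex
  rw [e1]
  exact key _ _ (fun v hv => hex.choose_spec.1 ⟨v, hv⟩) hex.choose_spec.2

end Pool.Agent.Y145.KD
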